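import Pool.Agent.helper5.BEY.SpecA

/-!
# Project BEY (MP_4467b5_nt), row FAR: sums over fractions
-/

set_option autoImplicit false

open Complex MeasureTheory

namespace Pool.Agent.BEY

theorem FAR_el {y : ℝ} (hy : 0 < y) : HasDerivAt el (-(1 / (y * (y + 1)))) y := by
  have h1 : HasDerivAt (fun y : ℝ => 1 + 1 / y) (-(1 / y ^ 2)) y := by
    have h := (hasDerivAt_inv hy.ne').const_add 1
    have e1 : (fun y : ℝ => 1 + y⁻¹) = fun y : ℝ => 1 + 1 / y := by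
      funext z; rw [one_div]
    rw [e1] at h
    have e2 : -(y ^ 2)⁻¹ = -(1 / y ^ 2) := by rw [one_div]
    rwa [e2] at h
  have h0 : 1 + 1 / y ≠ 0 := by positivity
  have h2 := h1.log h0
  have e3 : -(1 / y ^ 2) / (1 + 1 / y) = -(1 / (y * (y + 1))) := by
    field_simp
  rw [e3] at h2
  exact h2

theorem FAR_E (t : ℝ) {y : ℝ} (hy : 0 < y) :
    HasDerivAt (E t) (E t y * (((t / (y * (y + 1)) : ℝ) : ℂ) * I)) y := by
  have h1 : HasDerivAt (fun y : ℝ => -(t * el y)) (-(t * (-(1 / (y * (y + 1)))))) y := ((FAR_el hy).const_mul t).neg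
  have e1 : -(t * (-(1 / (y * (y + 1))))) = t / (y * (y + 1)) := by ring
  rw [e1] at h1
  exact (h1.ofReal_comp.mul_const I).cexp

theorem FAR_cont {Q : ℝ} (hQ : 1 ≤ Q) {B : ℝ → ℝ} (hB : Am Q B) (W : Finset ℝ) (c : ℝ → ℂ) : Continuous (FW B W c) := by
  obtain ⟨h1, h2, -⟩ := hB
  rw [continuous_iff_continuousAt]
  intro y
  by_cases hy : y < Q
  · have he : FW B W c =ᶠ[nhds y] fun _ => 0 := by
      filter_upwards [Iio_mem_nhds hy] with z hz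
      unfold FW
      have : B z = 0 := h2 z (fun h => absurd h.1 (not_le.2 hz))
      refine Finset.sum_eq_zero fun t _ => ?_
      rw [this]
      simp
    exact (continuousAt_const).congr he.symm
  · push Not at hy
    have hy0 : 0 < y := by linarith
    unfold FW
    refine tendsto_finsetSum _ fun t _ => ?_
    have hc1 : ContinuousAt (fun y : ℝ => ((B y : ℝ) : ℂ)) y :=
      (Complex.continuous_ofReal.comp h1.continuous).continuousAt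
    exact (continuousAt_const.mul (hc1.mul (FAR_E t hy0).continuousAt))

theorem FAR_zero {Q : ℝ} {B : ℝ → ℝ} (hB : ∀ y, y ∉ Set.Icc Q (4 * Q) → B y = 0) (W : Finset ℝ) (c : ℝ → ℂ) (y : ℝ)
    (hy : y ∉ Set.Icc Q (4 * Q)) : FW B W c y = 0 := by
  unfold FW
  refine Finset.sum_eq_zero fun t _ => ?_
  rw [hB y hy]
  simp

theorem FAR_am1 {Q : ℝ} {A : ℝ → ℝ} (hA : Am2 Q A) : Am Q A :=
  ⟨hA.1.of_le (by norm_num), hA.2.1, fun y => ⟨(hA.2.2 y).1, (hA.2.2 y).2.1⟩⟩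

/-- the derivative vanishes outside of the support -/
theorem FAR_dz {Q : ℝ} {B : ℝ → ℝ} (hB : ∀ y, y ∉ Set.Icc Q (4 * Q) → B y = 0) (y : ℝ) (hy : y ∉ Set.Icc Q (4 * Q)) :
    B =ᶠ[nhds y] fun _ => 0 := by
  filter_upwards [(isClosed_Icc.isOpen_compl).mem_nhds hy] with z hz
  exact hB z hz

/-- the amplitude `Q A'` -/
theorem FAR_am2 {Q : ℝ} (hQ : 1 ≤ Q) {A : ℝ → ℝ} (hA : Am2 Q A) : Am Q (fun y => Q * deriv A y) := by
  have hQ0 : 0 < Q := by linarith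
  obtain ⟨h1, h2, h3⟩ := hA
  have hd : ContDiff ℝ 1 (deriv A) := by
    have h : ContDiff ℝ (1 + 1) A := by
      have e : (1 : WithTop ℕ∞) + 1 = 2 := one_add_one_eq_two
      rw [e]; exact h1
    exact (contDiff_succ_iff_deriv.1 h).2.2
  refine ⟨contDiff_const.mul hd, ?_, ?_⟩
  · intro y hy
    show Q * deriv A y = 0
    rw [(FAR_dz h2 y hy).deriv_eq]
    simp
  · intro y
    have hdd : DifferentiableAt ℝ (deriv A) y := hd.differentiable (by norm_num) y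
    rw [deriv_const_mul _ hdd, abs_mul, abs_mul, abs_of_pos hQ0]
    constructor
    · calc Q * |deriv A y| ≤ Q * (1 / Q) := mul_le_mul_of_nonneg_left (h3 y).2.1 hQ0.le
        _ = 1 := mul_one_div_cancel hQ0.ne'
    · calc Q * |deriv (deriv A) y| ≤ Q * (1 / Q ^ 2) := mul_le_mul_of_nonneg_left (h3 y).2.2 hQ0.le
        _ = 1 / Q := by field_simp

/-- the amplitude `A Q² / (4 y (y+1))` -/
theorem FAR_am3 {Q : ℝ} (hQ : 1 ≤ Q) {A : ℝ → ℝ} (hA : Am2 Q A) : Am Q (fun y => A y * (Q ^ 2 / (4 * (y * (y + 1))))) := by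
  have hQ0 : 0 < Q := by linarith
  obtain ⟨h1, h2, h3⟩ := hA
  have hz : ∀ y, y ∉ Set.Icc Q (4 * Q) → A y * (Q ^ 2 / (4 * (y * (y + 1)))) = 0 := by
    intro y hy
    rw [h2 y hy, zero_mul]
  have hA1 : ContDiff ℝ 1 A := h1.of_le (by norm_num)
  refine ⟨?_, hz, ?_⟩
  · rw [contDiff_iff_contDiffAt]
    intro y
    by_cases hy : y < Q
    · exact contDiffAt_const.congr_of_eventuallyEq (FAR_dz hz y (fun h => absurd h.1 (not_le.2 hy)))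
    · push Not at hy
      have hy0 : 0 < y := by linarith
      refine hA1.contDiffAt.mul (contDiffAt_const.div ?_ (by positivity))
      exact (contDiff_const.mul (contDiff_id.mul (contDiff_id.add contDiff_const))).contDiffAt
  · intro y
    by_cases hy : y ∈ Set.Icc Q (4 * Q)
    · have hy0 : 0 < y := by linarith [hy.1]
      have hyQ : Q ^ 2 ≤ y * (y + 1) := by nlinarith [hy.1]
      have hg1 : |Q ^ 2 / (4 * (y * (y + 1)))| ≤ 1 / 4 := by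
        rw [abs_of_pos (by positivity), div_le_iff₀ (by positivity)]
        linarith
      have hgd : HasDerivAt (fun y : ℝ => Q ^ 2 / (4 * (y * (y + 1)))) (-(Q ^ 2 * (2 * y + 1)) / (4 * (y * (y + 1)) ^ 2)) y := by
        have a1 : HasDerivAt (fun y : ℝ => 4 * (y * (y + 1))) (4 * (1 * (y + 1) + y * 1)) y :=
          ((hasDerivAt_id' y).mul ((hasDerivAt_id' y).add_const 1)).const_mul 4
        have a2 := (hasDerivAt_const y (Q ^ 2)).div a1 (by positivity)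
        have e1 : (0 * (4 * (y * (y + 1))) - Q ^ 2 * (4 * (1 * (y + 1) + y * 1))) / (4 * (y * (y + 1))) ^ 2 =
            -(Q ^ 2 * (2 * y + 1)) / (4 * (y * (y + 1)) ^ 2) := by
          field_simp
          ring
        rwa [e1] at a2
      have hg2 : |-(Q ^ 2 * (2 * y + 1)) / (4 * (y * (y + 1)) ^ 2)| ≤ 1 / (2 * Q) := by
        rw [abs_div, abs_neg, abs_of_pos (by positivity : 0 < Q ^ 2 * (2 * y + 1)),
          abs_of_pos (by positivity : 0 < 4 * (y * (y + 1)) ^ 2), div_le_div_iff₀ (by positivity) (by positivity)]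
        have b1 : Q ^ 2 * (2 * y + 1) ≤ y ^ 2 * (2 * (y + 1)) := by
          have b2 : Q ^ 2 ≤ y ^ 2 := by nlinarith [hy.1]
          exact mul_le_mul b2 (by linarith) (by positivity) (by positivity)
        have b3 : y ^ 2 * (2 * (y + 1)) * (2 * Q) ≤ 4 * (y * (y + 1)) ^ 2 := by
          have b4 : 4 * (y * (y + 1)) ^ 2 = y ^ 2 * (2 * (y + 1)) * (2 * (y + 1)) := by ring
          rw [b4]
          refine mul_le_mul_of_nonneg_left ?_ (by positivity)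
          linarith [hy.1]
        have b5 := mul_le_mul_of_nonneg_right b1 (by positivity : 0 ≤ 2 * Q)
        linarith
      have hAd : HasDerivAt A (deriv A y) y := (hA1.differentiable (by norm_num) y).hasDerivAt
      have hd := hAd.mul hgd
      have hd' : deriv (fun y => A y * (Q ^ 2 / (4 * (y * (y + 1))))) y = deriv A y * (Q ^ 2 / (4 * (y * (y + 1)))) +
          A y * (-(Q ^ 2 * (2 * y + 1)) / (4 * (y * (y + 1)) ^ 2)) := hd.deriv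
      constructor
      · rw [abs_mul]
        have := mul_le_mul (h3 y).1 hg1 (abs_nonneg _) zero_le_one
        linarith
      · rw [hd']
        refine (abs_add_le _ _).trans ?_
        rw [abs_mul, abs_mul]
        have c1 := mul_le_mul (h3 y).2.1 hg1 (abs_nonneg _) (by positivity)
        have c2 := mul_le_mul (h3 y).1 hg2 (abs_nonneg _) zero_le_one
        have c3 : 1 / Q * (1 / 4) + 1 * (1 / (2 * Q)) ≤ 1 / Q := by
          have : 1 / Q * (1 / 4) + 1 * (1 / (2 * Q)) = (3 / 4) * (1 / Q) := by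
            field_simp
            ring
          rw [this]
          have : 0 < 1 / Q := by positivity
          linarith
        linarith
    · show |A y * (Q ^ 2 / (4 * (y * (y + 1))))| ≤ 1 ∧ |deriv (fun y => A y * (Q ^ 2 / (4 * (y * (y + 1))))) y| ≤ 1 / Q
      rw [hz y hy, (FAR_dz hz y hy).deriv_eq]
      simp
      positivity

/-- the derivative of the sum -/
noncomputable def FAR_F' (Q T : ℝ) (A : ℝ → ℝ) (W : Finset ℝ) (y : ℝ) : ℂ :=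
  ((1 / Q : ℝ) : ℂ) * FW (fun y => Q * deriv A y) W (fun _ => 1) y +
    ((12 * T / Q ^ 2 : ℝ) : ℂ) * FW (fun y => A y * (Q ^ 2 / (4 * (y * (y + 1))))) W (fun t => ((t / (3 * T) : ℝ) : ℂ) * I) y

theorem FAR_deriv {Q T : ℝ} (hQ : 1 ≤ Q) (hT : 0 < T) {A : ℝ → ℝ} (hA : Am2 Q A) (W : Finset ℝ) (y : ℝ) :
    HasDerivAt (FW A W (fun _ => 1)) (FAR_F' Q T A W y) y := by
  have hQ0 : 0 < Q := by linarith
  by_cases hy : y < Q
  · have hyn : y ∉ Set.Icc Q (4 * Q) := fun h => absurd h.1 (not_le.2 hy)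
    have he : FW A W (fun _ => 1) =ᶠ[nhds y] fun _ => 0 := by
      filter_upwards [Iio_mem_nhds hy] with z hz
      exact FAR_zero hA.2.1 W _ z (fun h => absurd h.1 (not_le.2 hz))
    have h0 : FAR_F' Q T A W y = 0 := by
      unfold FAR_F'
      rw [FAR_zero (FAR_am2 hQ hA).2.1 W _ y hyn, FAR_zero (FAR_am3 hQ hA).2.1 W _ y hyn, mul_zero, mul_zero, add_zero]
    rw [h0]
    exact (hasDerivAt_const y (0 : ℂ)).congr_of_eventuallyEq he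
  · push Not at hy
    have hy0 : 0 < y := by linarith
    have hAd : HasDerivAt A (deriv A y) y := (hA.1.differentiable (by norm_num) y).hasDerivAt
    have h1 : HasDerivAt (fun y : ℝ => ∑ t ∈ W, (1 : ℂ) * (((A y : ℝ) : ℂ) * E t y))
        (∑ t ∈ W, (1 : ℂ) * (((deriv A y : ℝ) : ℂ) * E t y + ((A y : ℝ) : ℂ) * (E t y * (((t / (y * (y + 1)) : ℝ) : ℂ) * I)))) y :=
      HasDerivAt.fun_sum fun t _ => (hAd.ofReal_comp.mul (FAR_E t hy0)).const_mul 1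
    have h2 : ∑ t ∈ W, (1 : ℂ) * (((deriv A y : ℝ) : ℂ) * E t y + ((A y : ℝ) : ℂ) * (E t y * (((t / (y * (y + 1)) : ℝ) : ℂ) * I))) =
        FAR_F' Q T A W y := by
      unfold FAR_F' FW
      rw [Finset.mul_sum, Finset.mul_sum, ← Finset.sum_add_distrib]
      refine Finset.sum_congr rfl fun t _ => ?_
      have c1 : (Q : ℂ) ≠ 0 := by exact_mod_cast hQ0.ne'
      have c2 : (T : ℂ) ≠ 0 := by exact_mod_cast hT.ne'
      have c3 : (y : ℂ) ≠ 0 := by exact_mod_cast hy0.ne'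
      have c4 : (y : ℂ) + 1 ≠ 0 := by
        have : y + 1 ≠ 0 := by positivity
        exact_mod_cast this
      push_cast
      field_simp
      ring
    rw [h2] at h1
    exact h1

theorem FAR_contF' {Q T : ℝ} (hQ : 1 ≤ Q) {A : ℝ → ℝ} (hA : Am2 Q A) (W : Finset ℝ) : Continuous (FAR_F' Q T A W) := by
  unfold FAR_F'
  exact (continuous_const.mul (FAR_cont hQ (FAR_am2 hQ hA) W _)).add (continuous_const.mul (FAR_cont hQ (FAR_am3 hQ hA) W _))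

theorem FAR_Pzc (Q : ℝ) {F : ℝ → ℂ} (hF : Continuous F) : Continuous (Pz Q F) := by
  unfold Pz
  exact continuous_finsetSum _ fun j _ => hF.comp (continuous_id.add continuous_const)

theorem FAR_Pzlin (Q : ℝ) (a b : ℂ) (F G : ℝ → ℂ) (x : ℝ) :
    Pz Q (fun y => a * F y + b * G y) x = a * Pz Q F x + b * Pz Q G x := by
  unfold Pz
  rw [Finset.mul_sum, Finset.mul_sum, ← Finset.sum_add_distrib]

theorem FAR_sq (a b : ℂ) : ‖a + b‖ ^ 2 ≤ 2 * ‖a‖ ^ 2 + 2 * ‖b‖ ^ 2 := by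
  have h1 := norm_add_le a b
  have h2 : ‖a + b‖ ^ 2 ≤ (‖a‖ + ‖b‖) ^ 2 := pow_le_pow_left₀ (norm_nonneg _) h1 2
  nlinarith [sq_nonneg (‖a‖ - ‖b‖)]

/-- the mean square of the derivative -/
theorem FAR_J {Q T X : ℝ} (hQ : 1 ≤ Q) (hQT : Q ≤ T) {A : ℝ → ℝ} (hA : Am2 Q A) (W : Finset ℝ) (hX : 0 ≤ X)
    (h1 : ∫ x in (0 : ℝ)..1, ‖Pz Q (FW (fun y => Q * deriv A y) W (fun _ => 1)) x‖ ^ 2 ≤ X)
    (h2 : ∫ x in (0 : ℝ)..1, ‖Pz Q (FW (fun y => A y * (Q ^ 2 / (4 * (y * (y + 1))))) W (fun t => ((t / (3 * T) : ℝ) : ℂ) * I)) x‖ ^ 2 ≤ X) :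
    (∫ x in (0 : ℝ)..1, ‖Pz Q (FAR_F' Q T A W) x‖ ^ 2) / (T / Q ^ 2) ^ 2 ≤ 290 * X := by
  have hQ0 : 0 < Q := by linarith
  have hT : 0 < T := by linarith
  have c1 := FAR_cont hQ (FAR_am2 hQ hA) W (fun _ => 1)
  have c2 := FAR_cont hQ (FAR_am3 hQ hA) W (fun t => ((t / (3 * T) : ℝ) : ℂ) * I)
  have hc1 : Continuous fun x => ‖Pz Q (FW (fun y => Q * deriv A y) W (fun _ => 1)) x‖ ^ 2 := (FAR_Pzc Q c1).norm.pow 2
  have hc2 : Continuous fun x => ‖Pz Q (FW (fun y => A y * (Q ^ 2 / (4 * (y * (y + 1))))) W (fun t => ((t / (3 * T) : ℝ) : ℂ) * I)) x‖ ^ 2 :=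
    (FAR_Pzc Q c2).norm.pow 2
  have hc3 : Continuous fun x => ‖Pz Q (FAR_F' Q T A W) x‖ ^ 2 := (FAR_Pzc Q (FAR_contF' (T := T) hQ hA W)).norm.pow 2
  have hpt : ∀ x, ‖Pz Q (FAR_F' Q T A W) x‖ ^ 2 ≤
      2 * (1 / Q) ^ 2 * ‖Pz Q (FW (fun y => Q * deriv A y) W (fun _ => 1)) x‖ ^ 2 +
      2 * (12 * T / Q ^ 2) ^ 2 * ‖Pz Q (FW (fun y => A y * (Q ^ 2 / (4 * (y * (y + 1))))) W (fun t => ((t / (3 * T) : ℝ) : ℂ) * I)) x‖ ^ 2 := by
    intro x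
    have e : Pz Q (FAR_F' Q T A W) x = ((1 / Q : ℝ) : ℂ) * Pz Q (FW (fun y => Q * deriv A y) W (fun _ => 1)) x +
        ((12 * T / Q ^ 2 : ℝ) : ℂ) * Pz Q (FW (fun y => A y * (Q ^ 2 / (4 * (y * (y + 1))))) W (fun t => ((t / (3 * T) : ℝ) : ℂ) * I)) x :=
      FAR_Pzlin Q _ _ _ _ x
    rw [e]
    refine (FAR_sq _ _).trans (le_of_eq ?_)
    rw [norm_mul, norm_mul, Complex.norm_real, Complex.norm_real, Real.norm_eq_abs, Real.norm_eq_abs,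
      abs_of_pos (by positivity : 0 < 1 / Q), abs_of_pos (by positivity : 0 < 12 * T / Q ^ 2)]
    ring
  have hint : ∫ x in (0 : ℝ)..1, ‖Pz Q (FAR_F' Q T A W) x‖ ^ 2 ≤ 2 * (1 / Q) ^ 2 * X + 2 * (12 * T / Q ^ 2) ^ 2 * X := by
    calc ∫ x in (0 : ℝ)..1, ‖Pz Q (FAR_F' Q T A W) x‖ ^ 2
        ≤ ∫ x in (0 : ℝ)..1, (2 * (1 / Q) ^ 2 * ‖Pz Q (FW (fun y => Q * deriv A y) W (fun _ => 1)) x‖ ^ 2 +
          2 * (12 * T / Q ^ 2) ^ 2 * ‖Pz Q (FW (fun y => A y * (Q ^ 2 / (4 * (y * (y + 1))))) W (fun t => ((t / (3 * T) : ℝ) : ℂ) * I)) x‖ ^ 2) := by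
          refine intervalIntegral.integral_mono_on zero_le_one (hc3.intervalIntegrable _ _) ?_ (fun x _ => hpt x)
          exact ((continuous_const.mul hc1).add (continuous_const.mul hc2)).intervalIntegrable _ _
      _ = 2 * (1 / Q) ^ 2 * (∫ x in (0 : ℝ)..1, ‖Pz Q (FW (fun y => Q * deriv A y) W (fun _ => 1)) x‖ ^ 2) +
          2 * (12 * T / Q ^ 2) ^ 2 * ∫ x in (0 : ℝ)..1, ‖Pz Q (FW (fun y => A y * (Q ^ 2 / (4 * (y * (y + 1))))) W (fun t => ((t / (3 * T) : ℝ) : ℂ) * I)) x‖ ^ 2 := by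
          have hc1' : Continuous fun x => 2 * (1 / Q) ^ 2 * ‖Pz Q (FW (fun y => Q * deriv A y) W (fun _ => 1)) x‖ ^ 2 :=
            continuous_const.mul hc1
          have hc2' : Continuous fun x => 2 * (12 * T / Q ^ 2) ^ 2 * ‖Pz Q (FW (fun y => A y * (Q ^ 2 / (4 * (y * (y + 1))))) W (fun t => ((t / (3 * T) : ℝ) : ℂ) * I)) x‖ ^ 2 :=
            continuous_const.mul hc2
          rw [intervalIntegral.integral_add (hc1'.intervalIntegrable _ _)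
            (hc2'.intervalIntegrable _ _), intervalIntegral.integral_const_mul,
            intervalIntegral.integral_const_mul]
      _ ≤ _ := add_le_add (mul_le_mul_of_nonneg_left h1 (by positivity)) (mul_le_mul_of_nonneg_left h2 (by positivity))
  rw [div_le_iff₀ (by positivity)]
  refine hint.trans ?_
  have e1 : 290 * X * (T / Q ^ 2) ^ 2 = 288 * (T / Q ^ 2) ^ 2 * X + 2 * (T / Q ^ 2) ^ 2 * X := by ring
  have e2 : 2 * (12 * T / Q ^ 2) ^ 2 * X = 288 * (T / Q ^ 2) ^ 2 * X := by ring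
  have e3 : 1 / Q ≤ T / Q ^ 2 := by
    rw [div_le_div_iff₀ hQ0 (by positivity)]
    nlinarith
  have e4 : (1 / Q) ^ 2 ≤ (T / Q ^ 2) ^ 2 := pow_le_pow_left₀ (by positivity) e3 2
  rw [e1, e2]
  nlinarith [mul_le_mul_of_nonneg_right e4 hX]

/-- the integral -/
theorem FAR_int {Q T C2 : ℝ} (hQ : 1 ≤ Q) (hT : 0 < T) {A : ℝ → ℝ} (hA : Am2 Q A) (W : Finset ℝ)
    (hW : ∀ t ∈ W, T / 2 ≤ t) (h : ∀ t : ℝ, |t| * ‖∫ y : ℝ, ((A y : ℝ) : ℂ) * E t y‖ ≤ C2 * Q ^ 2) :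
    ‖∫ y : ℝ, FW A W (fun _ => 1) y‖ ≤ 2 * C2 * ((W.card : ℝ) * Q ^ 2 / T) := by
  have hint : ∀ t : ℝ, Integrable (fun y : ℝ => ((A y : ℝ) : ℂ) * E t y) := by
    intro t
    have hc := FAR_cont hQ (FAR_am1 hA) {t} (fun _ => 1)
    have e : FW A {t} (fun _ => 1) = fun y : ℝ => ((A y : ℝ) : ℂ) * E t y := by
      funext y
      unfold FW
      rw [Finset.sum_singleton, one_mul]
    rw [e] at hc
    refine hc.integrable_of_hasCompactSupport (HasCompactSupport.intro (isCompact_Icc (a := Q) (b := 4 * Q)) fun y hy => ?_)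
    rw [hA.2.1 y hy]
    simp
  have e : ∫ y : ℝ, FW A W (fun _ => 1) y = ∑ t ∈ W, ∫ y : ℝ, ((A y : ℝ) : ℂ) * E t y := by
    rw [← integral_finsetSum W (fun t _ => hint t)]
    refine integral_congr_ae (Filter.Eventually.of_forall fun y => ?_)
    show FW A W (fun _ => 1) y = _
    unfold FW
    exact Finset.sum_congr rfl fun t _ => one_mul _
  rw [e]
  have h1 : ∀ t ∈ W, ‖∫ y : ℝ, ((A y : ℝ) : ℂ) * E t y‖ ≤ 2 * C2 * (Q ^ 2 / T) := by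
    intro t ht
    have h2 := h t
    have h3 : T / 2 ≤ |t| := (hW t ht).trans (le_abs_self t)
    have h4 : T / 2 * ‖∫ y : ℝ, ((A y : ℝ) : ℂ) * E t y‖ ≤ C2 * Q ^ 2 :=
      (mul_le_mul_of_nonneg_right h3 (norm_nonneg _)).trans h2
    have h5 : 2 * C2 * (Q ^ 2 / T) = (C2 * Q ^ 2) / (T / 2) := by field_simp
    rw [h5, le_div_iff₀ (by positivity)]
    linarith
  calc ‖∑ t ∈ W, ∫ y : ℝ, ((A y : ℝ) : ℂ) * E t y‖ ≤ ∑ t ∈ W, ‖∫ y : ℝ, ((A y : ℝ) : ℂ) * E t y‖ := norm_sum_le _ _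
    _ ≤ ∑ _t ∈ W, 2 * C2 * (Q ^ 2 / T) := Finset.sum_le_sum h1
    _ = 2 * C2 * ((W.card : ℝ) * Q ^ 2 / T) := by
      rw [Finset.sum_const, nsmul_eq_mul]
      ring

/-- the exponents -/
theorem FAR_KY {Q T G T₀ R : ℝ} (hQ : 1 ≤ Q) (hT : 0 < T) (hG : 1 ≤ G) (hT₀ : 0 ≤ T₀) (hR : 0 ≤ R) :
    T / Q ^ 2 * (R * (Q + Q ^ 2 / G) + R ^ 2 * (T₀ ^ (1 / 2 : ℝ) * Q ^ (5 / 2 : ℝ) / T + Q ^ 3 / T)) ≤
      (T ^ (1 / 2 : ℝ) * R ^ (1 / 2 : ℝ) * Q ^ (-(1 / 2) : ℝ) * (1 + Q / G) ^ (1 / 2 : ℝ) +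
        R * (T₀ ^ (1 / 4 : ℝ) * Q ^ (1 / 4 : ℝ) + Q ^ (1 / 2 : ℝ))) ^ 2 := by
  have hQ0 : 0 < Q := by linarith
  have hG0 : 0 < G := by linarith
  have hg0 : 0 ≤ 1 + Q / G := by positivity
  have half : ∀ x : ℝ, 0 ≤ x → (x ^ (1 / 2 : ℝ)) ^ 2 = x := by
    intro x hx
    rw [← Real.rpow_natCast, ← Real.rpow_mul hx]
    norm_num
  have quar : ∀ x : ℝ, 0 ≤ x → (x ^ (1 / 4 : ℝ)) ^ 2 = x ^ (1 / 2 : ℝ) := by
    intro x hx
    rw [← Real.rpow_natCast, ← Real.rpow_mul hx]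
    norm_num
  have hq : (Q ^ (-(1 / 2) : ℝ)) ^ 2 = 1 / Q := by
    rw [← Real.rpow_natCast, ← Real.rpow_mul hQ0.le]
    norm_num
    exact Real.rpow_neg_one Q
  have h52 : Q ^ (5 / 2 : ℝ) = Q ^ 2 * Q ^ (1 / 2 : ℝ) := by
    rw [← Real.rpow_natCast, ← Real.rpow_add hQ0]
    norm_num
  obtain ⟨a, ha⟩ : ∃ a, a = T ^ (1 / 2 : ℝ) := ⟨_, rfl⟩
  obtain ⟨b, hb⟩ : ∃ b, b = R ^ (1 / 2 : ℝ) := ⟨_, rfl⟩
  obtain ⟨q, hqd⟩ : ∃ q, q = Q ^ (-(1 / 2) : ℝ) := ⟨_, rfl⟩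
  obtain ⟨g, hg⟩ : ∃ g, g = (1 + Q / G) ^ (1 / 2 : ℝ) := ⟨_, rfl⟩
  obtain ⟨s, hs⟩ : ∃ s, s = T₀ ^ (1 / 4 : ℝ) := ⟨_, rfl⟩
  obtain ⟨k, hk⟩ : ∃ k, k = Q ^ (1 / 4 : ℝ) := ⟨_, rfl⟩
  have a2 : a ^ 2 = T := by rw [ha]; exact half T hT.le
  have b2 : b ^ 2 = R := by rw [hb]; exact half R hR
  have q2 : q ^ 2 = 1 / Q := by rw [hqd]; exact hq
  have g2 : g ^ 2 = 1 + Q / G := by rw [hg]; exact half _ hg0
  have s2 : s ^ 2 = T₀ ^ (1 / 2 : ℝ) := by rw [hs]; exact quar T₀ hT₀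
  have k2 : k ^ 2 = Q ^ (1 / 2 : ℝ) := by rw [hk]; exact quar Q hQ0.le
  have k4 : k ^ 2 * k ^ 2 = Q := by
    rw [k2, ← sq]; exact half Q hQ0.le
  have pa : 0 ≤ a := by rw [ha]; positivity
  have pb : 0 ≤ b := by rw [hb]; positivity
  have pq : 0 ≤ q := by rw [hqd]; positivity
  have pg : 0 ≤ g := by rw [hg]; positivity
  have ps : 0 ≤ s := by rw [hs]; positivity
  have pk : 0 ≤ k := by rw [hk]; positivity
  rw [h52, ← ha, ← hb, ← hqd, ← hg, ← hs, ← hk, ← s2, ← k2]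
  have e1 : T / Q ^ 2 * (R * (Q + Q ^ 2 / G) + R ^ 2 * (s ^ 2 * (Q ^ 2 * k ^ 2) / T + Q ^ 3 / T)) =
      T * R * (1 / Q) * (1 + Q / G) + R ^ 2 * (s ^ 2 * k ^ 2) + R ^ 2 * Q := by
    field_simp
    ring
  rw [e1]
  have e2 : T * R * (1 / Q) * (1 + Q / G) = (a * b * q * g) ^ 2 := by
    rw [mul_pow, mul_pow, mul_pow, a2, b2, q2, g2]
  have e3 : R ^ 2 * Q = (R * k ^ 2) ^ 2 := by
    rw [mul_pow, sq (k ^ 2), k4]
  rw [e2, e3]
  have p1 : 0 ≤ a * b * q * g := by positivity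
  have p2 : 0 ≤ R * (s * k) := by positivity
  have p3 : 0 ≤ R * k ^ 2 := by positivity
  nlinarith [mul_nonneg p1 p2, mul_nonneg p1 p3, mul_nonneg p2 p3]

theorem FAR (hDUA : DUA_stmt) (hPNM : PNM_stmt) (hOS0 : OS0_stmt) : FAR_stmt := by
  intro ε hε
  obtain ⟨C1, hC1, hdua⟩ := hDUA ε hε
  obtain ⟨C3, hC3, hpnm⟩ := hPNM
  obtain ⟨C2, hC2, hos⟩ := hOS0
  obtain ⟨D, hD⟩ : ∃ D, D = 291 * C3 * (2 ^ ε * (1 + 1 / ε)) := ⟨_, rfl⟩
  have hD0 : 0 < D := by rw [hD]; positivity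
  refine ⟨C1 * (2 * C2) + C1 * Real.sqrt D, by positivity, ?_⟩
  intro Q T G T₀ A W H₀ α hQ hQT hG hA hH hα hW hsep hdiam hT₀
  have hQ0 : 0 < Q := by linarith
  have hT1 : 1 ≤ T := by linarith
  have hT0 : 0 < T := by linarith
  have hR : 0 ≤ (W.card : ℝ) := Nat.cast_nonneg _
  have hK0 : 0 < T / Q ^ 2 := by positivity
  have hlog : 0 ≤ Real.log T := Real.log_nonneg hT1
  obtain ⟨Y, hY⟩ : ∃ Y, Y = (W.card : ℝ) * (Q + Q ^ 2 / G) +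
      (W.card : ℝ) ^ 2 * (T₀ ^ (1 / 2 : ℝ) * Q ^ (5 / 2 : ℝ) / T + Q ^ 3 / T) := ⟨_, rfl⟩
  have hY0 : 0 ≤ Y := by
    have hG0 : 0 < G := by linarith
    rw [hY]; positivity
  obtain ⟨X, hX⟩ : ∃ X, X = C3 * (1 + Real.log T) * Y := ⟨_, rfl⟩
  have hX0 : 0 ≤ X := by rw [hX]; positivity
  have hP : ∀ (B : ℝ → ℝ) (c : ℝ → ℂ), Am Q B → (∀ t ∈ W, ‖c t‖ ≤ 1) →
      ∫ x in (0 : ℝ)..1, ‖Pz Q (FW B W c) x‖ ^ 2 ≤ X := by
    intro B c hB hc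
    rw [hX, hY]
    exact hpnm Q T G T₀ B W c hQ hQT hG hB hW hc hsep hdiam
  have i0 := hP A (fun _ => 1) (FAR_am1 hA) (fun _ _ => by simp)
  have i1 := hP _ (fun _ => 1) (FAR_am2 hQ hA) (fun _ _ => by simp)
  have i2 := hP _ (fun t => ((t / (3 * T) : ℝ) : ℂ) * I) (FAR_am3 hQ hA) (fun t ht => by
    rw [norm_mul, Complex.norm_I, mul_one, Complex.norm_real, Real.norm_eq_abs]
    have h1 := hW t ht
    rw [abs_of_nonneg (by have := h1.1; apply div_nonneg <;> linarith), div_le_one (by linarith)]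
    exact h1.2)
  have i3 := FAR_J hQ hQT hA W hX0 i1 i2
  have hsum : (∫ x in (0 : ℝ)..1, ‖Pz Q (FW A W (fun _ => 1)) x‖ ^ 2) +
      (∫ x in (0 : ℝ)..1, ‖Pz Q (FAR_F' Q T A W) x‖ ^ 2) / (T / Q ^ 2) ^ 2 ≤ 291 * X := by linarith
  have hsum0 : 0 ≤ (∫ x in (0 : ℝ)..1, ‖Pz Q (FW A W (fun _ => 1)) x‖ ^ 2) +
      (∫ x in (0 : ℝ)..1, ‖Pz Q (FAR_F' Q T A W) x‖ ^ 2) / (T / Q ^ 2) ^ 2 := by
    refine add_nonneg ?_ (div_nonneg ?_ (by positivity))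
    · exact intervalIntegral.integral_nonneg zero_le_one fun x _ => by positivity
    · exact intervalIntegral.integral_nonneg zero_le_one fun x _ => by positivity
  have hmain := hdua Q (T / Q ^ 2) (FW A W (fun _ => 1)) (FAR_F' Q T A W) H₀ α hQ hK0 hH
    (FAR_deriv hQ hT0 hA W) (FAR_contF' hQ hA W) (fun y hy => FAR_zero hA.2.1 W _ y hy) hα
  refine hmain.trans ?_
  have hI := FAR_int hQ hT0 hA W (fun t ht => (hW t ht).1) (fun t => (hos Q t t A A hQ (FAR_am1 hA) (FAR_am1 hA)).2.2)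
  obtain ⟨S, hS⟩ : ∃ S, S = T ^ (1 / 2 : ℝ) * (W.card : ℝ) ^ (1 / 2 : ℝ) * Q ^ (-(1 / 2) : ℝ) * (1 + Q / G) ^ (1 / 2 : ℝ) +
        (W.card : ℝ) * (T₀ ^ (1 / 4 : ℝ) * Q ^ (1 / 4 : ℝ) + Q ^ (1 / 2 : ℝ)) := ⟨_, rfl⟩
  have hS0 : 0 ≤ S := by
    have hG0 : 0 < G := by linarith
    rw [hS]; positivity
  have hKY : T / Q ^ 2 * Y ≤ S ^ 2 := by
    rw [hY, hS]
    exact FAR_KY hQ hT0 hG hT₀ hR
  have hTε : 1 ≤ T ^ ε := Real.one_le_rpow hT1 hε.le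
  -- the product of the two roots
  have hroot : (T / Q ^ 2 * (1 + T / Q ^ 2) ^ ε) ^ (1 / 2 : ℝ) *
      ((∫ x in (0 : ℝ)..1, ‖Pz Q (FW A W (fun _ => 1)) x‖ ^ 2) +
        (∫ x in (0 : ℝ)..1, ‖Pz Q (FAR_F' Q T A W) x‖ ^ 2) / (T / Q ^ 2) ^ 2) ^ (1 / 2 : ℝ) ≤ Real.sqrt D * (T ^ ε * S) := by
    rw [← Real.mul_rpow (by positivity) hsum0, ← Real.sqrt_eq_rpow]
    have h1 : T / Q ^ 2 * (1 + T / Q ^ 2) ^ ε * ((∫ x in (0 : ℝ)..1, ‖Pz Q (FW A W (fun _ => 1)) x‖ ^ 2) +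
        (∫ x in (0 : ℝ)..1, ‖Pz Q (FAR_F' Q T A W) x‖ ^ 2) / (T / Q ^ 2) ^ 2) ≤ D * (T ^ ε * S) ^ 2 := by
      have h2 : (1 + T / Q ^ 2) ^ ε ≤ 2 ^ ε * T ^ ε := by
        rw [← Real.mul_rpow (by norm_num) hT0.le]
        refine Real.rpow_le_rpow (by positivity) ?_ hε.le
        have h3 : T / Q ^ 2 ≤ T := div_le_self hT0.le (by nlinarith)
        linarith
      have h4 : 1 + Real.log T ≤ (1 + 1 / ε) * T ^ ε := by
        have h5 := Real.log_le_rpow_div hT0.le hε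
        have h6 : T ^ ε / ε = 1 / ε * T ^ ε := by ring
        nlinarith
      have h7 : (1 + T / Q ^ 2) ^ ε * (1 + Real.log T) ≤ (2 ^ ε * T ^ ε) * ((1 + 1 / ε) * T ^ ε) :=
        mul_le_mul h2 h4 (by positivity) (by positivity)
      calc T / Q ^ 2 * (1 + T / Q ^ 2) ^ ε * ((∫ x in (0 : ℝ)..1, ‖Pz Q (FW A W (fun _ => 1)) x‖ ^ 2) +
            (∫ x in (0 : ℝ)..1, ‖Pz Q (FAR_F' Q T A W) x‖ ^ 2) / (T / Q ^ 2) ^ 2)
          ≤ T / Q ^ 2 * (1 + T / Q ^ 2) ^ ε * (291 * X) := mul_le_mul_of_nonneg_left hsum (by positivity)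
        _ = 291 * C3 * ((T / Q ^ 2 * Y) * ((1 + T / Q ^ 2) ^ ε * (1 + Real.log T))) := by rw [hX]; ring
        _ ≤ 291 * C3 * (S ^ 2 * ((2 ^ ε * T ^ ε) * ((1 + 1 / ε) * T ^ ε))) := by
          refine mul_le_mul_of_nonneg_left ?_ (by positivity)
          exact mul_le_mul hKY h7 (by positivity) (by positivity)
        _ = D * (T ^ ε * S) ^ 2 := by rw [hD]; ring
    calc Real.sqrt _ ≤ Real.sqrt (D * (T ^ ε * S) ^ 2) := Real.sqrt_le_sqrt h1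
      _ = Real.sqrt D * (T ^ ε * S) := by
        rw [Real.sqrt_mul hD0.le, Real.sqrt_sq (by positivity)]
  rw [← hS]
  obtain ⟨P1, hP1⟩ : ∃ P1, P1 = (H₀ : ℝ) ^ 2 * (W.card : ℝ) * Q ^ 2 / T := ⟨_, rfl⟩
  rw [← hP1]
  have hP10 : 0 ≤ P1 := by rw [hP1]; positivity
  have hA1 : (H₀ : ℝ) ^ 2 * ‖∫ y : ℝ, FW A W (fun _ => 1) y‖ ≤ 2 * C2 * P1 := by
    calc (H₀ : ℝ) ^ 2 * ‖∫ y : ℝ, FW A W (fun _ => 1) y‖ ≤ (H₀ : ℝ) ^ 2 * (2 * C2 * ((W.card : ℝ) * Q ^ 2 / T)) :=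
          mul_le_mul_of_nonneg_left hI (by positivity)
      _ = 2 * C2 * P1 := by rw [hP1]; ring
  have hA2 : (H₀ : ℝ) * (T / Q ^ 2 * (1 + T / Q ^ 2) ^ ε) ^ (1 / 2 : ℝ) *
      ((∫ x in (0 : ℝ)..1, ‖Pz Q (FW A W (fun _ => 1)) x‖ ^ 2) +
        (∫ x in (0 : ℝ)..1, ‖Pz Q (FAR_F' Q T A W) x‖ ^ 2) / (T / Q ^ 2) ^ 2) ^ (1 / 2 : ℝ) ≤
      (H₀ : ℝ) * (Real.sqrt D * (T ^ ε * S)) := by
    rw [mul_assoc]
    exact mul_le_mul_of_nonneg_left hroot (by positivity)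
  have hHS : 0 ≤ (H₀ : ℝ) * S := by positivity
  have hsD : 0 ≤ Real.sqrt D := Real.sqrt_nonneg _
  calc C1 * ((H₀ : ℝ) ^ 2 * ‖∫ y : ℝ, FW A W (fun _ => 1) y‖ + (H₀ : ℝ) * (T / Q ^ 2 * (1 + T / Q ^ 2) ^ ε) ^ (1 / 2 : ℝ) *
      ((∫ x in (0 : ℝ)..1, ‖Pz Q (FW A W (fun _ => 1)) x‖ ^ 2) +
        (∫ x in (0 : ℝ)..1, ‖Pz Q (FAR_F' Q T A W) x‖ ^ 2) / (T / Q ^ 2) ^ 2) ^ (1 / 2 : ℝ))
      ≤ C1 * (2 * C2 * P1 + (H₀ : ℝ) * (Real.sqrt D * (T ^ ε * S))) :=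
        mul_le_mul_of_nonneg_left (add_le_add hA1 hA2) hC1.le
    _ ≤ C1 * (2 * C2 * (T ^ ε * P1) + (H₀ : ℝ) * (Real.sqrt D * (T ^ ε * S))) := by
        refine mul_le_mul_of_nonneg_left (add_le_add ?_ le_rfl) hC1.le
        refine mul_le_mul_of_nonneg_left ?_ (by positivity)
        nlinarith
    _ = C1 * (2 * C2) * (T ^ ε * P1) + C1 * Real.sqrt D * (T ^ ε * ((H₀ : ℝ) * S)) := by ring
    _ ≤ (C1 * (2 * C2) + C1 * Real.sqrt D) * T ^ ε * (P1 + (H₀ : ℝ) * S) := by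
        have q1 : 0 ≤ C1 * (2 * C2) * (T ^ ε * ((H₀ : ℝ) * S)) := by positivity
        have q2 : 0 ≤ C1 * Real.sqrt D * (T ^ ε * P1) := by positivity
        nlinarith

end Pool.Agent.BEY
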